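import Pool.Agent.Helper86.TH.Stmts

/-!
Row BAS of the project TH (MP_1b3f64_co, leader helper86): normalised eigenvectors of `D_0`
form a basis.
-/

namespace TH55

open TH MvPolynomial Finset

/-- the partition `i ↦ sum_{j >= i} s_j` as a function -/
def pv (s : ℕ →₀ ℕ) (i : ℕ) : ℕ := ∑ j ∈ s.support, if i ≤ j then s j else 0

theorem pv_anti (s : ℕ →₀ ℕ) : Antitone (pv s) := by
  intro a b hab
  unfold pv
  refine sum_le_sum fun j _ => ?_
  by_cases h : b ≤ j
  · rw [if_pos h, if_pos (hab.trans h)]
  · rw [if_neg h]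
    exact Nat.zero_le _

theorem pv_zero (s : ℕ →₀ ℕ) {i : ℕ} (h : s.support.sup id < i) : pv s i = 0 := by
  unfold pv
  refine sum_eq_zero fun j hj => ?_
  have h1 : j ≤ s.support.sup id := le_sup (f := id) hj
  rw [if_neg (by omega)]

theorem pv_step (s : ℕ →₀ ℕ) (i : ℕ) : pv s i = pv s (i + 1) + s i := by
  unfold pv
  have h1 : ∀ j ∈ s.support, (if i ≤ j then s j else 0)
      = (if i + 1 ≤ j then s j else 0) + (if i = j then s j else 0) := by
    intro j _
    by_cases h : i ≤ j
    · rw [if_pos h]
      by_cases h2 : i = j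
      · rw [if_pos h2, if_neg (by omega), zero_add]
      · rw [if_neg h2, if_pos (by omega), add_zero]
    · rw [if_neg h, if_neg (by omega), if_neg (by omega)]
  rw [sum_congr rfl h1, sum_add_distrib]
  congr 1
  rw [sum_ite_eq]
  split_ifs with h
  · rfl
  · exact (Finsupp.notMem_support_iff.1 h).symm

/-- the partition with the multiplicity differences `s` -/
noncomputable def pp (s : ℕ →₀ ℕ) : Par :=
  ⟨Finsupp.onFinset (range (s.support.sup id + 1)) (pv s) (fun i hi => by
    rw [mem_range]
    by_contra hcon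
    exact hi (pv_zero s (by omega))), fun _ _ hab => pv_anti s hab⟩

theorem pp_apply (s : ℕ →₀ ℕ) (i : ℕ) : (pp s).1 i = pv s i := rfl

theorem pp_inj : Function.Injective pp := by
  intro s s' h
  ext i
  have h1 : ∀ j, pv s j = pv s' j := by
    intro j
    rw [← pp_apply, ← pp_apply, h]
  have h2 := pv_step s i
  have h3 := pv_step s' i
  rw [h1 i, h1 (i + 1)] at h2
  omega

theorem card_pp (s : ℕ →₀ ℕ) : card (pp s) = Finsupp.weight (fun j : ℕ => j + 1) s := by
  rw [TH.card_range (pp s) (s.support.sup id + 1) (fun i hi => pv_zero s (by omega))]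
  have h1 : ∀ i ∈ range (s.support.sup id + 1), (pp s).1 i
      = ∑ j ∈ s.support, if i ≤ j then s j else 0 := fun i _ => rfl
  rw [sum_congr rfl h1, sum_comm, Finsupp.weight_apply, Finsupp.sum]
  refine sum_congr rfl fun j hj => ?_
  have hj1 : j ≤ s.support.sup id := le_sup (f := id) hj
  rw [← sum_filter, sum_const]
  have h2 : (range (s.support.sup id + 1)).filter (fun i => i ≤ j) = range (j + 1) := by
    ext i
    rw [mem_filter, mem_range, mem_range]
    omega
  rw [h2, Finset.card_range]
  change (j + 1) • s j = s j • (j + 1)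
  rw [smul_eq_mul, smul_eq_mul, mul_comm]

theorem finite_par (n : ℕ) : Finite {μ : Par // card μ = n} := by
  have hle : ∀ (μ : Par) (i : ℕ), μ.1 i ≤ card μ := by
    intro μ i
    by_cases h : i ∈ μ.1.support
    · exact single_le_sum (f := fun i => μ.1 i) (fun _ _ => Nat.zero_le _) h
    · rw [Finsupp.notMem_support_iff.1 h]
      exact Nat.zero_le _
  refine Finite.of_injective (β := Fin n → Fin (n + 1))
    (fun μ i => ⟨μ.1.1 i, by have := hle μ.1 i; have h2 := μ.2; omega⟩) ?_
  intro μ ν h
  apply Subtype.ext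
  apply Subtype.ext
  ext i
  by_cases hi : i < n
  · have h1 := congrFun h ⟨i, hi⟩
    exact congrArg Fin.val h1
  · rw [μ.1.zero_of_card_le (by rw [μ.2]; omega), ν.1.zero_of_card_le (by rw [ν.2]; omega)]

theorem finite_wt (n : ℕ) : Finite {s : ℕ →₀ ℕ // Finsupp.weight (fun j : ℕ => j + 1) s = n} := by
  have := finite_par n
  refine Finite.of_injective (β := {μ : Par // card μ = n})
    (fun s => ⟨pp s.1, by rw [card_pp, s.2]⟩) ?_
  intro s s' h
  apply Subtype.ext
  apply pp_inj
  exact congrArg Subtype.val h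



theorem st_BAS (K : Type*) [Field K] [CharZero K] : ST_BAS K := by
  classical
  intro q t H hG hE
  have hne : ∀ μ, H μ ≠ 0 := by
    intro μ h
    have h1 := hE.eps μ
    rw [h, map_zero] at h1
    exact zero_ne_one h1
  have hinj : Function.Injective (fun μ : Par => 1 - Mj q t 0 * Ps q t μ 0) := by
    intro μ ν h
    have h1 : 1 - Mj q t 0 * Ps q t μ 0 = 1 - Mj q t 0 * Ps q t ν 0 := h
    have h2 : Mj q t 0 * Ps q t μ 0 = Mj q t 0 * Ps q t ν 0 := by linear_combination -h1
    exact hG.inj μ ν (mul_left_cancel₀ (hG.Mj_ne 0) h2)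
  have hli : LinearIndependent K H := by
    refine Module.End.eigenvectors_linearIndependent' (Dk q t 0)
      (fun μ : Par => 1 - Mj q t 0 * Ps q t μ 0) hinj H ?_
    intro μ
    refine ⟨?_, hne μ⟩
    rw [Module.End.mem_eigenspace_iff]
    exact hE.eig μ
  have key : ∀ s : ℕ →₀ ℕ, (monomial s (1 : K) : Sy K) ∈ Submodule.span K (Set.range H) := by
    intro s
    obtain ⟨n, hn⟩ : ∃ n, n = Finsupp.weight (fun j : ℕ => j + 1) s := ⟨_, rfl⟩
    have := finite_par n
    have := finite_wt n
    letI := Fintype.ofFinite {μ : Par // card μ = n}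
    letI := Fintype.ofFinite {s : ℕ →₀ ℕ // Finsupp.weight (fun j : ℕ => j + 1) s = n}
    obtain ⟨b, hb⟩ : ∃ b : {s : ℕ →₀ ℕ // Finsupp.weight (fun j : ℕ => j + 1) s = n} → Sy K,
      b = fun s => (monomial s.1 (1 : K) : Sy K) := ⟨_, rfl⟩
    obtain ⟨c, hc⟩ : ∃ c : {μ : Par // card μ = n} → Sy K, c = fun μ => H μ.1 := ⟨_, rfl⟩
    have hcard : Fintype.card {s : ℕ →₀ ℕ // Finsupp.weight (fun j : ℕ => j + 1) s = n}
        ≤ Fintype.card {μ : Par // card μ = n} := by
      refine Fintype.card_le_of_injective
        (fun s => (⟨pp s.1, by rw [card_pp, s.2]⟩ : {μ : Par // card μ = n})) ?_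
      intro s s' h
      apply Subtype.ext
      apply pp_inj
      exact congrArg Subtype.val h
    have h1 : Module.finrank K (Submodule.span K (Set.range b))
        ≤ Fintype.card {s : ℕ →₀ ℕ // Finsupp.weight (fun j : ℕ => j + 1) s = n} :=
      finrank_range_le_card b
    have hlic : LinearIndependent K c := by
      rw [hc]
      exact hli.comp _ Subtype.val_injective
    have h2 : Module.finrank K (Submodule.span K (Set.range c))
        = Fintype.card {μ : Par // card μ = n} := finrank_span_eq_card hlic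
    have h3 : Submodule.span K (Set.range c) ≤ Submodule.span K (Set.range b) := by
      rw [Submodule.span_le]
      rintro _ ⟨μ, rfl⟩
      rw [hc]
      change H μ.1 ∈ Submodule.span K (Set.range b)
      have h4 : WH n (H μ.1) := by
        have := hE.hom μ.1
        rw [μ.2] at this
        exact this
      rw [(H μ.1).as_sum]
      refine Submodule.sum_mem _ fun s hs => ?_
      have h5 : Finsupp.weight (fun j : ℕ => j + 1) s = n := h4 (mem_support_iff.1 hs)
      have h6 : (monomial s (coeff s (H μ.1)) : Sy K)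
          = (coeff s (H μ.1)) • (monomial s (1 : K) : Sy K) := by
        rw [smul_monomial, smul_eq_mul, mul_one]
      rw [h6]
      refine Submodule.smul_mem _ _ (Submodule.subset_span ⟨⟨s, h5⟩, ?_⟩)
      rw [hb]
    have : FiniteDimensional K (Submodule.span K (Set.range b)) :=
      FiniteDimensional.span_of_finite K (Set.finite_range b)
    have h7 : Submodule.span K (Set.range c) = Submodule.span K (Set.range b) :=
      Submodule.eq_of_le_of_finrank_le h3 (by rw [h2]; exact h1.trans hcard)
    have h8 : (monomial s (1 : K) : Sy K) ∈ Submodule.span K (Set.range c) := by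
      rw [h7]
      refine Submodule.subset_span ⟨⟨s, hn.symm⟩, ?_⟩
      rw [hb]
    refine Submodule.span_mono ?_ h8
    rintro _ ⟨μ, rfl⟩
    rw [hc]
    exact ⟨μ.1, rfl⟩
  have hsp : ⊤ ≤ Submodule.span K (Set.range H) := by
    intro F _
    rw [F.as_sum]
    refine Submodule.sum_mem _ fun s _ => ?_
    have h6 : (monomial s (coeff s F) : Sy K) = (coeff s F) • (monomial s (1 : K) : Sy K) := by
      rw [smul_monomial, smul_eq_mul, mul_one]
    rw [h6]
    exact Submodule.smul_mem _ _ (key s)
  exact ⟨Module.Basis.mk hli hsp, fun μ => Module.Basis.mk_apply hli hsp μ⟩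

end TH55
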