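import Pool.Agent.Helper86.TH.Stmts

/-! # TH row INT: the interpolation formula -/

set_option linter.unusedSectionVars false

namespace TH55

open TH MvPolynomial Finset

section
variable {K : Type*} [Field K] [CharZero K]

theorem tauA_C (q t : K) (a : K) : tauA q t (C a) = Polynomial.C (C a) := by
  have h := (tauA q t).commutes a
  rw [MvPolynomial.algebraMap_eq] at h
  rw [h]
  rfl

theorem tau_zero_apply (q t : K) (F : Sy K) : tau q t 0 F = F := by
  rw [tau_apply]
  induction F using MvPolynomial.induction_on with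
  | C a => rw [tauA_C, Polynomial.coeff_C_zero]
  | add p p' hp hp' => rw [map_add, Polynomial.coeff_add, hp, hp']
  | mul_X p j hp =>
    rw [map_mul, Polynomial.mul_coeff_zero, hp, tauA_X]
    simp

theorem tau_one_apply (q t : K) (F : Sy K) : tau q t 1 F = C (Mj q t 0) * pd F := by
  have hpd : ∀ G : Sy K, (pd : Module.End K (Sy K)) G = pderiv 0 G := fun _ => rfl
  rw [tau_apply, hpd]
  induction F using MvPolynomial.induction_on with
  | C a => rw [tauA_C, Polynomial.coeff_C, if_neg one_ne_zero, pderiv_C, mul_zero]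
  | add p p' hp hp' => rw [map_add, Polynomial.coeff_add, hp, hp', map_add, mul_add]
  | mul_X p j hp =>
    have h0 := tau_zero_apply q t p
    rw [tau_apply] at h0
    rw [map_mul, Polynomial.mul_coeff_one, hp, h0, tauA_X, Derivation.leibniz]
    rcases Nat.eq_zero_or_pos j with rfl | hj
    · simp
      ring
    · have h1 : (pderiv 0) (X j : Sy K) = 0 := by
        rw [pderiv_X]
        simp [Pi.single_apply, hj.ne']
      have h2 : (Polynomial.C (C (Mj q t j) : Sy K) * Polynomial.X ^ (j + 1)).coeff 1 = 0 := by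
        rw [Polynomial.coeff_C_mul_X_pow, if_neg (by omega)]
      have h3 : (Polynomial.C (C (Mj q t j) : Sy K) * Polynomial.X ^ (j + 1)).coeff 0 = 0 := by
        rw [Polynomial.coeff_C_mul_X_pow, if_neg (by omega)]
      have h4 : (Polynomial.C (X j : Sy K)).coeff 1 = 0 := by
        rw [Polynomial.coeff_C, if_neg one_ne_zero]
      rw [Polynomial.coeff_add, Polynomial.coeff_add, h1, h2, h3, h4, Polynomial.coeff_C_zero]
      simp only [smul_eq_mul]
      ring

/-- the shifted evaluation -/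
theorem eval_tauA (q t : K) (c : ℕ → K) (y : K) (F : Sy K) :
    Polynomial.eval₂ (ev c : Sy K →+* K) y (tauA q t F)
      = ev (fun j => c j + Mj q t j * y ^ (j + 1)) F := by
  induction F using MvPolynomial.induction_on with
  | C a => simp [tauA_C, ev]
  | add p p' hp hp' => rw [map_add, Polynomial.eval₂_add, hp, hp', map_add]
  | mul_X p j hp =>
    rw [map_mul, Polynomial.eval₂_mul, hp, map_mul, tauA_X]
    congr 1
    simp [ev]

theorem sum_tau (q t : K) (c : ℕ → K) (y : K) (F : Sy K) (L : ℕ)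
    (hL : (tauA q t F).natDegree < L) :
    ∑ n ∈ range L, y ^ n * ev c (tau q t n F)
      = ev (fun j => c j + Mj q t j * y ^ (j + 1)) F := by
  rw [← eval_tauA, Polynomial.eval₂_eq_sum_range' _ hL]
  refine Finset.sum_congr rfl fun n _ => ?_
  rw [tau_apply, mul_comm]
  rfl

theorem pt_dn {q t : K} (h : Gn q t) {μ : Par} {i : ℕ} (hi : Rmb μ i) (k : ℕ) :
    pt q t (dn μ i) k = pt q t μ k + Mj q t k * (t⁻¹ * (zc q t μ i)⁻¹) ^ (k + 1) := by
  have h1 : Ps q⁻¹ t⁻¹ μ k = Ps q⁻¹ t⁻¹ (dn μ i) k + zc q⁻¹ t⁻¹ (dn μ i) i ^ (k + 1) := by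
    have := Ps_up q⁻¹ t⁻¹ (adb_dn hi) k
    rw [up_dn hi] at this
    exact this
  have h2 : zc q⁻¹ t⁻¹ (dn μ i) i = q * (zc q t μ i)⁻¹ := by
    rw [zc, zc, dn_apply_same hi]
    have h3 : q ^ μ.1 i = q * q ^ (μ.1 i - 1) := by
      rw [← pow_succ']
      congr 1
      have := hi.1
      omega
    rw [h3]
    have hq := h.q0
    have ht := h.t0
    rw [inv_pow, inv_pow]
    field_simp
  have h4 : Mj q⁻¹ t⁻¹ k * (q * t) ^ (k + 1) = Mj q t k := by
    have hq : q⁻¹ ^ (k + 1) * q ^ (k + 1) = 1 := by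
      rw [← mul_pow, inv_mul_cancel₀ h.q0, one_pow]
    have ht : t⁻¹ ^ (k + 1) * t ^ (k + 1) = 1 := by
      rw [← mul_pow, inv_mul_cancel₀ h.t0, one_pow]
    rw [Mj, Mj, mul_pow]
    calc (1 - q⁻¹ ^ (k + 1)) * (1 - t⁻¹ ^ (k + 1)) * (q ^ (k + 1) * t ^ (k + 1))
        = (q ^ (k + 1) - q⁻¹ ^ (k + 1) * q ^ (k + 1))
          * (t ^ (k + 1) - t⁻¹ ^ (k + 1) * t ^ (k + 1)) := by ring
      _ = _ := by rw [hq, ht]; ring
  have h5 : (q * t) ^ (k + 1) * (t⁻¹ * (zc q t μ i)⁻¹) ^ (k + 1)
      = (q * (zc q t μ i)⁻¹) ^ (k + 1) := by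
    rw [← mul_pow]
    congr 1
    have ht := h.t0
    field_simp
  rw [pt, pt, h1, h2, ← h4, mul_assoc, h5]
  ring

theorem ev_eh (c : ℕ → K) (n : ℕ) : ev c (eh K n) = hc (fun j => -(c j)) n := by
  have h := hc_map (ev c : Sy K →+* K) (fun j => -(X j : Sy K)) n
  have h1 : (fun j => (ev c : Sy K →+* K) (-(X j : Sy K))) = fun j => -(c j) := by
    funext j
    simp [ev]
  rw [h1] at h
  exact h

end

theorem st_INT (K : Type*) [Field K] [CharZero K] (h1 : ST_PF1 K) : ST_INT K := by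
  intro q t h μ N hN F
  obtain ⟨hA, hB⟩ := h1 q t h μ N hN
  set c := pt q t μ with hc'
  set L := (tauA q t F).natDegree + 2 with hLdef
  have hL : (tauA q t F).natDegree < L := by omega
  have e1 : ev c (Dk q t 0 F) = ∑ n ∈ range L, hc (fun j => -(c j)) n * ev c (tau q t n F) := by
    rw [Dk_apply q t 0 F L hL, map_sum]
    refine Finset.sum_congr rfl fun n _ => ?_
    rw [map_mul, zero_add, ehz_natCast, ev_eh]
  have e2 : ∑ n ∈ range L, (if n = 0 then 1 - Mj q t 0 * Ps q t μ 0 else 0)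
      * ev c (tau q t n F) = (1 - Mj q t 0 * Ps q t μ 0) * ev c F := by
    rw [Finset.sum_eq_single 0]
    · rw [if_pos rfl, tau_zero_apply]
    · intro n _ hn
      rw [if_neg hn, zero_mul]
    · intro hh
      exfalso; apply hh
      rw [mem_range]; omega
  have e3 : ∑ n ∈ range L, (if n = 1 then (1 : K) else 0)
      * ev c (tau q t n F) = Mj q t 0 * ev c (pd F) := by
    rw [Finset.sum_eq_single 1]
    · rw [if_pos rfl, tau_one_apply, map_mul, one_mul]
      simp [ev]
    · intro n _ hn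
      rw [if_neg hn, zero_mul]
    · intro hh
      exfalso; apply hh
      rw [mem_range]; omega
  have e4 : ∑ n ∈ range L, (∑ i ∈ range N, rho q t N μ i * (t⁻¹ * (zc q t μ i)⁻¹) ^ n)
      * ev c (tau q t n F)
      = ∑ i ∈ range N, rho q t N μ i
        * ev (fun j => c j + Mj q t j * (t⁻¹ * (zc q t μ i)⁻¹) ^ (j + 1)) F := by
    have e5 : ∀ i ∈ range N, rho q t N μ i
        * ev (fun j => c j + Mj q t j * (t⁻¹ * (zc q t μ i)⁻¹) ^ (j + 1)) F
        = ∑ n ∈ range L, rho q t N μ i * ((t⁻¹ * (zc q t μ i)⁻¹) ^ n * ev c (tau q t n F)) := by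
      intro i _
      rw [← sum_tau q t c _ F L hL, Finset.mul_sum]
    rw [Finset.sum_congr rfl e5, Finset.sum_comm]
    refine Finset.sum_congr rfl fun n _ => ?_
    rw [Finset.sum_mul]
    refine Finset.sum_congr rfl fun i _ => ?_
    ring
  have e6 : ev c (Dk q t 0 F)
      = ∑ n ∈ range L, (if n = 0 then 1 - Mj q t 0 * Ps q t μ 0 else 0) * ev c (tau q t n F)
        - ∑ n ∈ range L, (if n = 1 then (1 : K) else 0) * ev c (tau q t n F)
        + ∑ n ∈ range L, (∑ i ∈ range N, rho q t N μ i * (t⁻¹ * (zc q t μ i)⁻¹) ^ n)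
          * ev c (tau q t n F) := by
    rw [e1, ← Finset.sum_sub_distrib, ← Finset.sum_add_distrib]
    refine Finset.sum_congr rfl fun n _ => ?_
    rw [hA n]
    ring
  have e7 : ∑ i ∈ rms μ, rho q t N μ i * ev (pt q t (dn μ i)) F
      = ∑ i ∈ range N, rho q t N μ i
        * ev (fun j => c j + Mj q t j * (t⁻¹ * (zc q t μ i)⁻¹) ^ (j + 1)) F := by
    have e8 : ∀ i ∈ rms μ, rho q t N μ i * ev (pt q t (dn μ i)) F
        = rho q t N μ i
          * ev (fun j => c j + Mj q t j * (t⁻¹ * (zc q t μ i)⁻¹) ^ (j + 1)) F := by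
      intro i hi
      have e9 : pt q t (dn μ i) = fun j => c j + Mj q t j * (t⁻¹ * (zc q t μ i)⁻¹) ^ (j + 1) := by
        funext j
        exact pt_dn h (mem_rms.1 hi) j
      rw [e9]
    rw [Finset.sum_congr rfl e8]
    refine Finset.sum_subset ?_ fun i hi ha => ?_
    · intro i hi
      rw [mem_range]
      have := μ.lt_card_of_pos (mem_rms.1 hi).1
      omega
    · rw [hB i (mem_range.1 hi) ha, zero_mul]
  rw [e6, e2, e3, e4, e7]
  ring

end TH55
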