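import Pool.Agent.Helper86.TH.Stmts

/-! # TH row RR: the Pieri coefficients -/

set_option linter.unusedSectionVars false

namespace TH55

open TH MvPolynomial Finset

section
variable {K : Type*} [Field K] [CharZero K]

theorem gn_pow_inj {q t : K} (h : Gn q t) {a b c d : ℕ}
    (e : t ^ a * q ^ b = t ^ c * q ^ d) : a = c ∧ b = d := by
  have h1 : q ^ ((b : ℤ) - (d : ℤ)) * t ^ ((a : ℤ) - (c : ℤ)) = 1 := by
    rw [zpow_sub₀ h.q0, zpow_sub₀ h.t0, zpow_natCast, zpow_natCast, zpow_natCast, zpow_natCast]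
    have hd : q ^ d ≠ 0 := pow_ne_zero _ h.q0
    have hc : t ^ c ≠ 0 := pow_ne_zero _ h.t0
    field_simp
    linear_combination e
  have h2 := h.ind _ _ h1
  omega

theorem zc_inj {q t : K} (h : Gn q t) (μ : Par) {i j : ℕ}
    (e : zc q t μ i = zc q t μ j) : i = j := (gn_pow_inj h e).1

theorem zc_ne_pow {q t : K} (h : Gn q t) (μ : Par) {i N : ℕ} (hi : i < N) :
    zc q t μ i ≠ t ^ N := by
  intro e
  have e' : t ^ i * q ^ μ.1 i = t ^ N * q ^ 0 := by rw [pow_zero, mul_one]; exact e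
  have := (gn_pow_inj h e').1
  omega

theorem ads_subset {μ : Par} {N : ℕ} (hN : card μ < N) : ads μ ⊆ range N := by
  classical
  intro i hi
  rw [ads, Finset.mem_filter, mem_range] at hi
  rw [mem_range]
  have := hi.1
  omega

/-- the relation between `AA` and `rr` -/
theorem AA_eq_rr {q t : K} (h : Gn q t) (μ : Par) {i N : ℕ} (hi : i < N) :
    AA t N (zc q t μ) i = rr q t N μ i * (zc q t μ i - t ^ N) := by
  have h0 : zc q t μ i - t ^ N ≠ 0 := sub_ne_zero.2 (zc_ne_pow h μ hi)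
  have h1 : ∏ l ∈ (range N).erase i, (zc q t μ i - t * zc q t μ l) / (zc q t μ i - zc q t μ l)
      = ∏ j ∈ (range N).erase i,
        (1 - t * zc q t μ j / zc q t μ i) / (1 - zc q t μ j / zc q t μ i) := by
    refine Finset.prod_congr rfl fun j _ => ?_
    have hz := h.zc_ne μ i
    have e1 : 1 - t * zc q t μ j / zc q t μ i
        = (zc q t μ i - t * zc q t μ j) / zc q t μ i := by
      field_simp
    have e2 : 1 - zc q t μ j / zc q t μ i = (zc q t μ i - zc q t μ j) / zc q t μ i := by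
      field_simp
    rw [e1, e2, div_div_div_cancel_right₀ hz]
  rw [AA, rr, h1]
  generalize ∏ j ∈ (range N).erase i,
        (1 - t * zc q t μ j / zc q t μ i) / (1 - zc q t μ j / zc q t μ i) = P
  field_simp

theorem rr_eq_zero {q t : K} (h : Gn q t) (μ : Par) {i N : ℕ} (hi : i < N) (ha : i ∉ ads μ) :
    rr q t N μ i = 0 := by
  rw [mem_ads, adb_iff] at ha
  push Not at ha
  obtain ⟨j, hj, hle⟩ := ha
  have h1 : μ.1 i = μ.1 (i - 1) := by
    have e1 := μ.anti (show j ≤ i - 1 by omega)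
    have e2 := μ.anti (show i - 1 ≤ i by omega)
    omega
  have h2 : zc q t μ i = t * zc q t μ (i - 1) := by
    have e3 : t ^ i = t * t ^ (i - 1) := by
      rw [← pow_succ']
      congr 1
      omega
    rw [zc, zc, h1, e3]
    ring
  rw [rr]
  refine mul_eq_zero_of_right _ ?_
  refine Finset.prod_eq_zero (i := i - 1) ?_ ?_
  · rw [Finset.mem_erase, mem_range]
    omega
  · have hz := h.zc_ne μ i
    rw [← h2, div_self hz, sub_self, zero_div]

theorem sum_ads {q t : K} (h : Gn q t) (μ : Par) {N : ℕ} (hN : card μ < N) (f : ℕ → K) :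
    ∑ i ∈ ads μ, rr q t N μ i * f i = ∑ i ∈ range N, rr q t N μ i * f i := by
  refine Finset.sum_subset (ads_subset hN) fun i hi ha => ?_
  rw [rr_eq_zero h μ (mem_range.1 hi) ha, zero_mul]

theorem sum_rr (h1 : ST_PFR K) {q t : K} (h : Gn q t) (μ : Par) {N : ℕ} (hN : card μ < N) :
    ∑ i ∈ range N, rr q t N μ i = 1 := by
  have htN : t ^ N ≠ 0 := pow_ne_zero _ h.t0
  have hne : ∀ i, i < N → 1 - zc q t μ i * (t ^ N)⁻¹ ≠ 0 := by
    intro i hi e
    apply zc_ne_pow h μ hi
    have e1 : zc q t μ i * (t ^ N)⁻¹ = 1 := (sub_eq_zero.1 e).symm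
    field_simp at e1
    exact e1
  have h2 := h1 t N (zc q t μ) (fun i _ => h.zc_ne μ i) (fun i j _ _ e => zc_inj h μ e)
    (t ^ N)⁻¹ hne
  have h3 : ∏ i ∈ range N, (1 - t * zc q t μ i * (t ^ N)⁻¹) / (1 - zc q t μ i * (t ^ N)⁻¹)
      = 0 := by
    refine Finset.prod_eq_zero (i := N - 1) ?_ ?_
    · rw [mem_range]; omega
    · have e1 : zc q t μ (N - 1) = t ^ (N - 1) := by
        rw [zc, Par.zero_of_card_le μ (by omega), pow_zero, mul_one]
      have e2 : t * t ^ (N - 1) = t ^ N := by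
        rw [← pow_succ']
        congr 1
        omega
      rw [e1, e2, mul_inv_cancel₀ htN, sub_self, zero_div]
  have h4 : ∑ i ∈ range N, AA t N (zc q t μ) i / (1 - zc q t μ i * (t ^ N)⁻¹)
      = -(t ^ N * ∑ i ∈ range N, rr q t N μ i) := by
    rw [Finset.mul_sum, ← Finset.sum_neg_distrib]
    refine Finset.sum_congr rfl fun i hi => ?_
    have hi' := mem_range.1 hi
    rw [AA_eq_rr h μ hi', div_eq_iff (hne i hi')]
    field_simp
    ring
  rw [h3, h4] at h2
  have h5 : t ^ N * ∑ i ∈ range N, rr q t N μ i = t ^ N * 1 := by linear_combination h2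
  exact mul_left_cancel₀ htN h5

theorem geo_sum (x y : K) (r : ℕ) :
    (∑ p ∈ antidiagonal r, x ^ p.1 * y ^ p.2) * (y - x) = y ^ (r + 1) - x ^ (r + 1) := by
  rw [Finset.Nat.sum_antidiagonal_eq_sum_range_succ_mk]
  have h := geom_sum₂_mul x y (r + 1)
  have h2 : ∑ i ∈ range (r + 1), x ^ i * y ^ (r + 1 - 1 - i)
      = ∑ i ∈ range r.succ, x ^ (i, r - i).1 * y ^ (i, r - i).2 := rfl
  rw [h2] at h
  linear_combination -h

end

theorem st_RR (K : Type*) [Field K] [CharZero K] (h1 : ST_PFR K) (h2 : ST_PF0 K) : ST_RR K := by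
  intro q t h μ N hN
  refine ⟨fun i hi ha => rr_eq_zero h μ hi ha, ?_, fun r => ?_⟩
  · have e := sum_ads h μ hN (fun _ => 1)
    simp only [mul_one] at e
    rw [e, sum_rr h1 h μ hN]
  · have e := sum_ads h μ hN (fun i => zc q t μ i ^ (r + 1))
    rw [e]
    have e1 : (fun j => 1 - Mj q t j * Ps q t μ j)
        = fun j => (t ^ N) ^ (j + 1) + (1 - t ^ (j + 1)) * ∑ i ∈ range N, zc q t μ i ^ (j + 1) := by
      funext j
      exact one_sub_Mj_Ps q t μ j N (fun i hi => Par.zero_of_card_le μ (by omega))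
    rw [e1, hc_add]
    have e2 : ∀ n : ℕ, hc (fun j => (1 - t ^ (j + 1)) * ∑ i ∈ range N, zc q t μ i ^ (j + 1)) n
        = (if n = 0 then t ^ N else 0) + ∑ i ∈ range N, AA t N (zc q t μ) i * zc q t μ i ^ n :=
      h2 t N (zc q t μ) (fun i _ => h.zc_ne μ i) (fun i j _ _ e => zc_inj h μ e)
    have e3 : ∑ p ∈ antidiagonal r, hc (fun j => (t ^ N) ^ (j + 1)) p.1 *
        hc (fun j => (1 - t ^ (j + 1)) * ∑ i ∈ range N, zc q t μ i ^ (j + 1)) p.2
        = (∑ p ∈ antidiagonal r, (t ^ N) ^ p.1 * (if p.2 = 0 then t ^ N else 0))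
          + ∑ i ∈ range N, AA t N (zc q t μ) i *
            ∑ p ∈ antidiagonal r, (t ^ N) ^ p.1 * zc q t μ i ^ p.2 := by
      have e4 : ∑ i ∈ range N, AA t N (zc q t μ) i *
            ∑ p ∈ antidiagonal r, (t ^ N) ^ p.1 * zc q t μ i ^ p.2
          = ∑ p ∈ antidiagonal r, ∑ i ∈ range N, AA t N (zc q t μ) i *
              ((t ^ N) ^ p.1 * zc q t μ i ^ p.2) := by
        rw [Finset.sum_comm]
        refine Finset.sum_congr rfl fun i _ => ?_
        rw [Finset.mul_sum]
      rw [e4, ← Finset.sum_add_distrib]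
      refine Finset.sum_congr rfl fun p _ => ?_
      rw [hc_geom, e2, mul_add, Finset.mul_sum]
      congr 1
      refine Finset.sum_congr rfl fun i _ => ?_
      ring
    have e5 : ∑ p ∈ antidiagonal r, (t ^ N) ^ p.1 * (if p.2 = 0 then t ^ N else 0)
        = (t ^ N) ^ (r + 1) := by
      rw [Finset.sum_eq_single (r, 0)]
      · simp [pow_succ]
      · intro p hp hne
        rw [HasAntidiagonal.mem_antidiagonal] at hp
        rw [if_neg, mul_zero]
        intro h0
        apply hne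
        ext <;> simp <;> omega
      · intro hh
        exfalso; apply hh
        rw [HasAntidiagonal.mem_antidiagonal]; simp
    have e6 : ∑ i ∈ range N, AA t N (zc q t μ) i *
            ∑ p ∈ antidiagonal r, (t ^ N) ^ p.1 * zc q t μ i ^ p.2
        = ∑ i ∈ range N, rr q t N μ i * zc q t μ i ^ (r + 1)
          - (t ^ N) ^ (r + 1) * ∑ i ∈ range N, rr q t N μ i := by
      rw [Finset.mul_sum, ← Finset.sum_sub_distrib]
      refine Finset.sum_congr rfl fun i hi => ?_
      rw [AA_eq_rr h μ (mem_range.1 hi)]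
      have := geo_sum (t ^ N) (zc q t μ i) r
      linear_combination (rr q t N μ i) * this
    rw [e3, e5, e6, sum_rr h1 h μ hN]
    ring

end TH55
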